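import Mathlib
import Pool.Agent.Helper13.Bsd.Doubling

/-!
# The product has exact order `(log x) ^ r` if and only if it satisfies a one-sided doubling bound
-/

namespace Pool.Agent.Results.MP_ad1693_nt.DoublingCriterion

theorem result :
  ∀ (W : WeierstrassCurve ℤ), W.Δ ≠ 0 →
  ∀ (N : ℕ → ℕ), (∀ p : ℕ, N p = 1 + ((Finset.range p ×ˢ Finset.range p).filter
      (fun q : ℕ × ℕ => (p : ℤ) ∣ ((q.2 : ℤ) ^ 2 + W.a₁ * (q.1 : ℤ) * (q.2 : ℤ) + W.a₃ * (q.2 : ℤ)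
        - ((q.1 : ℤ) ^ 3 + W.a₂ * (q.1 : ℤ) ^ 2 + W.a₄ * (q.1 : ℤ) + W.a₆)))).card) →
  ∀ (F : ℂ → ℂ), Differentiable ℂ F →
  (∀ s : ℂ, 3 / 2 < s.re →
    HasProd (fun p : Nat.Primes =>
      if (((p : ℕ) : ℤ) ∣ W.Δ) then (1 : ℂ)
      else (1 - (((p : ℕ) : ℂ) + 1 - ((N (p : ℕ) : ℕ) : ℂ)) * ((p : ℕ) : ℂ) ^ (-s)
              + ((p : ℕ) : ℂ) ^ (1 - 2 * s))⁻¹) (F s)) →
  ∀ P : ℝ → ℝ, (∀ x : ℝ, P x = ∏ p ∈ (Finset.range ⌈x⌉₊).filter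
          (fun p : ℕ => Nat.Prime p ∧ ¬ (((p : ℕ) : ℤ) ∣ W.Δ)), ((N p : ℝ) / (p : ℝ))) →
  ((∃ K X : ℝ, ∀ x y : ℝ, X ≤ x → x ≤ y → y ≤ x ^ 2 → P y ≤ K * P x) ↔
    ∃ c C : ℝ, 0 < c ∧ ∀ᶠ x : ℝ in Filter.atTop,
      c * Real.log x ^ (analyticOrderNatAt F 1) ≤ P x ∧
      P x ≤ C * Real.log x ^ (analyticOrderNatAt F 1)) := by
  intro W _ N hN F hFd hF P hP
  have h : P = Pool.Agent.Helper13.Bsd.PE W N := funext hP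
  rw [h]
  exact Pool.Agent.Helper13.Bsd.doubling_criterion W N hN F hFd hF

end Pool.Agent.Results.MP_ad1693_nt.DoublingCriterion
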