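import Mathlib
import Pool.Agent.Helper13.Bsd.OmegaMain

/-!
# Zeros off the critical line force large oscillations of the Birch and Swinnerton-Dyer product

If `ρ` is a zero of multiplicity `m` with `Re ρ = 1 + θ > 1`, then for every `κ < m / |ρ - 1|`
one has `P_E(x) ≥ exp (κ x ^ θ / log x)` for arbitrarily large `x`, and, if there is no real zero
at or beyond `Re ρ`, also `P_E(x) ≤ exp (- κ x ^ θ / log x)` for arbitrarily large `x`.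
-/

namespace Pool.Agent.Results.MP_ad1693_nt.OmegaZeros

theorem result :
  ∀ (W : WeierstrassCurve ℤ), W.Δ ≠ 0 →
  ∀ (N : ℕ → ℕ), (∀ p : ℕ, N p = 1 + ((Finset.range p ×ˢ Finset.range p).filter
      (fun q : ℕ × ℕ => (p : ℤ) ∣ ((q.2 : ℤ) ^ 2 + W.a₁ * (q.1 : ℤ) * (q.2 : ℤ) + W.a₃ * (q.2 : ℤ)
        - ((q.1 : ℤ) ^ 3 + W.a₂ * (q.1 : ℤ) ^ 2 + W.a₄ * (q.1 : ℤ) + W.a₆)))).card) →
  ∀ (F : ℂ → ℂ), Differentiable ℂ F →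
  (∀ s : ℂ, 3 / 2 < s.re →
    HasProd (fun p : Nat.Primes =>
      if (((p : ℕ) : ℤ) ∣ W.Δ) then (1 : ℂ)
      else (1 - (((p : ℕ) : ℂ) + 1 - ((N (p : ℕ) : ℕ) : ℂ)) * ((p : ℕ) : ℂ) ^ (-s)
              + ((p : ℕ) : ℂ) ^ (1 - 2 * s))⁻¹) (F s)) →
  ∀ ρ : ℂ, 1 < ρ.re →
  ∀ κ : ℝ, 0 ≤ κ → κ * ‖ρ - 1‖ < (analyticOrderNatAt F ρ : ℝ) →
  (∃ᶠ x : ℝ in Filter.atTop,
    Real.exp (κ * (x ^ (ρ.re - 1) / Real.log x)) ≤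
      ∏ p ∈ (Finset.range ⌈x⌉₊).filter
          (fun p : ℕ => Nat.Prime p ∧ ¬ (((p : ℕ) : ℤ) ∣ W.Δ)), ((N p : ℝ) / (p : ℝ))) ∧
  ((∀ σ : ℝ, ρ.re ≤ σ → F (σ : ℂ) ≠ 0) →
    ∃ᶠ x : ℝ in Filter.atTop,
      ∏ p ∈ (Finset.range ⌈x⌉₊).filter
          (fun p : ℕ => Nat.Prime p ∧ ¬ (((p : ℕ) : ℤ) ∣ W.Δ)), ((N p : ℝ) / (p : ℝ))
        ≤ Real.exp (-(κ * (x ^ (ρ.re - 1) / Real.log x)))) := by
  intro W _ N hN F hFd hF ρ hρ κ hκ0 hκ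
  exact Pool.Agent.Helper13.Bsd.omega_pm W N hN F hFd hF ρ hρ κ hκ0 hκ

end Pool.Agent.Results.MP_ad1693_nt.OmegaZeros
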