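import Mathlib
import Pool.Agent.Helper13.Bsd.Criterion

/-!
# The Birch and Swinnerton-Dyer asymptotic for `E` as a one-sided Tauberian condition

The asymptotic `P_E(x) ~ C (log x) ^ r` with `C ≠ 0` holds for `E` if and only if
(a) for every `ε > 0` there are `l > 1` and `X` with `P_E(y) ≤ (1 + ε) P_E(x)` for
`X ≤ x ≤ y ≤ x ^ l`, and (b) the second moment sum `∑ (a_p / p) ^ 2 (p ^ (-w) - p ^ (-2 w))` has a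
limit as `w → 0+`.
-/

namespace Pool.Agent.Results.MP_ad1693_nt.TauberianCriterion

theorem result :
  ∀ (W : WeierstrassCurve ℤ), W.Δ ≠ 0 →
  ∀ (N : ℕ → ℕ), (∀ p : ℕ, N p = 1 + ((Finset.range p ×ˢ Finset.range p).filter
      (fun q : ℕ × ℕ => (p : ℤ) ∣ ((q.2 : ℤ) ^ 2 + W.a₁ * (q.1 : ℤ) * (q.2 : ℤ) + W.a₃ * (q.2 : ℤ)
        - ((q.1 : ℤ) ^ 3 + W.a₂ * (q.1 : ℤ) ^ 2 + W.a₄ * (q.1 : ℤ) + W.a₆)))).card) →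
  ∀ (F : ℂ → ℂ), Differentiable ℂ F →
  (∀ s : ℂ, 3 / 2 < s.re →
    HasProd (fun p : Nat.Primes =>
      if (((p : ℕ) : ℤ) ∣ W.Δ) then (1 : ℂ)
      else (1 - (((p : ℕ) : ℂ) + 1 - ((N (p : ℕ) : ℕ) : ℂ)) * ((p : ℕ) : ℂ) ^ (-s)
              + ((p : ℕ) : ℂ) ^ (1 - 2 * s))⁻¹) (F s)) →
  ∀ P : ℝ → ℝ, (∀ x : ℝ, P x = ∏ p ∈ (Finset.range ⌈x⌉₊).filter
          (fun p : ℕ => Nat.Prime p ∧ ¬ (((p : ℕ) : ℤ) ∣ W.Δ)), ((N p : ℝ) / (p : ℝ))) →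
  ((∃ C : ℝ, C ≠ 0 ∧ Asymptotics.IsEquivalent Filter.atTop P
      (fun x : ℝ => C * Real.log x ^ (analyticOrderNatAt F 1))) ↔
    ((∀ ε : ℝ, 0 < ε → ∃ l X : ℝ, 1 < l ∧ ∀ x y : ℝ, X ≤ x → x ≤ y → y ≤ x ^ l →
      P y ≤ (1 + ε) * P x) ∧
    ∃ s : ℝ, Filter.Tendsto (fun w : ℝ => ∑' p : Nat.Primes,
      if (((p : ℕ) : ℤ) ∣ W.Δ) then (0 : ℝ)
      else ((((p : ℕ) : ℝ) + 1 - ((N (p : ℕ) : ℕ) : ℝ)) / ((p : ℕ) : ℝ)) ^ 2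
        * (((p : ℕ) : ℝ) ^ (-w) - ((p : ℕ) : ℝ) ^ (-(2 * w))))
      (nhdsWithin 0 (Set.Ioi 0)) (nhds s))) := by
  intro W hΔ N hN F hFd hF P hP
  have h : P = Pool.Agent.Helper13.Bsd.PE W N := funext hP
  rw [h]
  exact Pool.Agent.Helper13.Bsd.tauberian_criterion W N hN hΔ F hFd hF

end Pool.Agent.Results.MP_ad1693_nt.TauberianCriterion
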